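import Mathlib
import Pool.Agent.Lib.Pf72953t.Main
import Pool.Agent.Lib.Pf72953z.MainF

/-!
# Iitaka's inequality for fibre spaces over a constant variety

`B ⊆ E` are the function fields of the base and the total space of a fibration over an algebraically
closed field `k` of characteristic zero.  After a finite extension `L` of `E`, unramified over the
geometric generic fibre, the fibration maps to a constant smooth complete variety `M` (no hypothesis on `M`
except `κ(M) ≥ 0` or a weaker condition), the fibres of this map dominate (or are isotrivial with fibre) an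
arbitrary variety `G`, and `E` is ramified over `M` along divisors which move in linear systems on `M`.

`Z` is the compositum of `B` and `k(M)`, and `N` is a finite extension of `L` which contains `G`.
-/

set_option linter.style.haveILetI false

open scoped WithZero
open Pf72953 Pf72953.Mov Pf72953.Twr Pf72953.Br Pf72953.Fac

namespace Pool.Agent.Results.MP_f72953_ag.ConstantVariety

universe u v w

/-- Parts (1) and (2): `B ⊆ E ⊆ L ⊆ N`, `M` a smooth complete variety with function field `Y ⊆ L`, `Z ⊆ L` the compositum of `B`
and `Y`, `G ⊆ N`, `N` algebraic over the compositum of `B`, `Y`, `G`, `dim B + dim M + dim G = dim E`; `L/E` is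
unramified at the valuations trivial on `B` and `N/L` at those trivial on `Z`; `D_j` are divisors on `M` over
the algebraic closure of `B`, moving in linear systems on `M`, `L` is ramified over `M` along the `D_j`, and
`κ(M) ≥ 0` or `PositiveOn`.  Then `κ(E) ≥ κ(B) + κ(M, K_M + ∑ S_j) + κ(G)` and, if `κ_orb(B;E) ≥ 0`,
`κ(E) ≥ max(κ_orb(B;E), Var) + κ(M, K_M + ∑ S_j) + κ(G)`.

If moreover `N` is generated by `G` and elements algebraic over `Z` and `L/Z` is unramified outside the
`D_j`, then `κ(F) ≤ κ(M, K_M + ∑ S_j) + κ(G)`, `F` the generic fibre of `E/B`, so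
`κ(E) ≥ κ(B) + κ(F)` and, if `κ_orb(B;E) ≥ 0`, `κ(E) ≥ max(κ_orb(B;E), Var) + κ(F)`. -/
def MovingIitaka : Prop :=
  ∀ (k : Type v) (B E Y Z G L N : Type u) (J : Type w) [Field k] [CharZero k] [IsAlgClosed k]
      [Field B] [Field E] [Field Y] [Field Z] [Field G] [Field L] [Field N]
      [Algebra k B] [Algebra k E] [Algebra k Y] [Algebra k Z] [Algebra k G] [Algebra k L]
      [Algebra k N] [Algebra B E] [Algebra B Z] [Algebra B L] [Algebra B N] [Algebra Y Z]
      [Algebra Y L] [Algebra Y N] [Algebra Z L] [Algebra Z N] [Algebra E L] [Algebra E N]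
      [Algebra L N] [Algebra G N]
      [IsScalarTower k B E] [IsScalarTower k B Z] [IsScalarTower k B L] [IsScalarTower k B N]
      [IsScalarTower k E L] [IsScalarTower k E N] [IsScalarTower k Y Z] [IsScalarTower k Y L]
      [IsScalarTower k Y N] [IsScalarTower k Z L] [IsScalarTower k Z N] [IsScalarTower k G N]
      [IsScalarTower k L N] [IsScalarTower B E L] [IsScalarTower B E N] [IsScalarTower B Z L]
      [IsScalarTower B Z N] [IsScalarTower B L N] [IsScalarTower Y Z L] [IsScalarTower Y Z N]
      [IsScalarTower Y L N] [IsScalarTower Z L N] [IsScalarTower E L N]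
      [Algebra.EssFiniteType k B] [Algebra.EssFiniteType k E] [Algebra.EssFiniteType k Y]
      [Algebra.EssFiniteType k G] [FiniteDimensional E L] [FiniteDimensional E N]
      [FiniteDimensional L N] [Fintype J],
      IsCompositum k B Y Z →
      dimension k B + dimension k Y + dimension k G = dimension k E →
      (∀ a : N, IsAlgebraic (Algebra.adjoin k (Set.range (algebraMap B N) ∪
        Set.range (algebraMap Y N) ∪ Set.range (algebraMap G N))) a) →
      Unramified k B E L → Unramified k Z L N →
      ∀ (M : SmoothModel k Y) (D : J → MovingDivisor M B N),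
      (∀ j, RamifiedOn k L G (D j)) → PositiveOn L D →
      (kodairaDim k B + logKodairaDim M (fun j => (D j).S) + kodairaDim k G ≤ kodairaDim k E ∧
        (orbKodairaDim k B E ≠ ⊥ →
          max (orbKodairaDim k B E) (((variation k D : ℕ) : ℕ∞) : WithBot ℕ∞) +
            logKodairaDim M (fun j => (D j).S) + kodairaDim k G ≤ kodairaDim k E)) ∧
      (Isotrivial k Z G N → UnramifiedOutsideOn k Z L G D →
        kodairaDim B E ≤ logKodairaDim M (fun j => (D j).S) + kodairaDim k G ∧
        kodairaDim k B + kodairaDim B E ≤ kodairaDim k E ∧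
        (orbKodairaDim k B E ≠ ⊥ →
          max (orbKodairaDim k B E) (((variation k D : ℕ) : ℕ∞) : WithBot ℕ∞) +
            kodairaDim B E ≤ kodairaDim k E))

/-- Part (3): let `κ(M) ≥ 0`, `P/Z` finite Galois, `N` the compositum of `L` and `P`, and of `P` and `G`, and let the Galois
group of `N/L` act on `G` (faithfully): the fibres of `E` over `M × B` are isotrivial, with fibre `G` and finite structure
group.  If `M` has factorial charts (`k` of infinite transcendence degree over `ℚ`, for example `k = ℂ`; a smooth projective `M`
has such charts if and only if `q(M) = 0`), or if every prime divisor of `M` over `B` over which `P` is ramified is the support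
of a divisor which moves in a linear system on `M`, then `κ(E) ≥ κ(B) + κ(F)` and, if `κ_orb(B;E) ≥ 0`,
`κ(E) ≥ max(κ_orb(B;E), Var) + κ(F)`, `Var` the variation of these divisors. -/
def IsotrivialIitaka : Prop :=
  ∀ (k : Type v) (B E Y Z P G L N : Type u) [Field k] [CharZero k] [IsAlgClosed k]
      [Field B] [Field E] [Field L] [Field Y] [Field Z] [Field P] [Field G] [Field N]
      [Algebra k B] [Algebra k E] [Algebra k L] [Algebra k Y] [Algebra k Z] [Algebra k P]
      [Algebra k G] [Algebra k N]
      [Algebra B E] [Algebra B L] [Algebra B Z] [Algebra B P] [Algebra B N]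
      [Algebra E L] [Algebra E N] [Algebra Y Z] [Algebra Y P] [Algebra Y L] [Algebra Y N]
      [Algebra Z P] [Algebra Z L] [Algebra Z N] [Algebra P N] [Algebra L N] [Algebra G N]
      [IsScalarTower k B E] [IsScalarTower k B L] [IsScalarTower k B Z] [IsScalarTower k B P]
      [IsScalarTower k B N] [IsScalarTower k E L] [IsScalarTower k E N]
      [IsScalarTower k Y Z] [IsScalarTower k Y P] [IsScalarTower k Y L] [IsScalarTower k Y N]
      [IsScalarTower k Z P] [IsScalarTower k Z L] [IsScalarTower k Z N] [IsScalarTower k P N]
      [IsScalarTower k L N] [IsScalarTower k G N]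
      [IsScalarTower B E L] [IsScalarTower B E N] [IsScalarTower B Z P] [IsScalarTower B Z L]
      [IsScalarTower B Z N] [IsScalarTower B P N] [IsScalarTower B L N]
      [IsScalarTower Y Z P] [IsScalarTower Y Z L] [IsScalarTower Y Z N] [IsScalarTower Y P N]
      [IsScalarTower Y L N] [IsScalarTower E L N] [IsScalarTower Z P N] [IsScalarTower Z L N]
      [FiniteDimensional E L] [FiniteDimensional Z P] [IsGalois Z P]
      [Algebra.EssFiniteType k B] [Algebra.EssFiniteType k E] [Algebra.EssFiniteType k Y]
      [Algebra.EssFiniteType k G],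
      IsCompositum k B Y Z →
      dimension k B + dimension k Y + dimension k G = dimension k E →
      Unramified k B E L →
      IntermediateField.adjoin L (Set.range (algebraMap P N)) = ⊤ →
      (∀ z : N, z ∈ IntermediateField.adjoin k
        (Set.range (algebraMap G N) ∪ Set.range (algebraMap P N))) →
      (∀ (σ : N ≃ₐ[L] N) (g : G), ∃ g' : G, σ (algebraMap G N g) = algebraMap G N g') →
      (∀ σ : N ≃ₐ[L] N, (∀ g : G, σ (algebraMap G N g) = algebraMap G N g) → σ = 1) →
      ∀ M : SmoothModel k Y, kodairaDim k Y ≠ ⊥ →
      (BranchMoves k M B Z P ∨ (Factorial M ∧ Cardinal.aleph0 ≤ Algebra.trdeg ℚ k)) →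
      kodairaDim k B + kodairaDim B E ≤ kodairaDim k E ∧
      (orbKodairaDim k B E ≠ ⊥ →
        max (orbKodairaDim k B E) (((branchVar k M B Z P : ℕ) : ℕ∞) : WithBot ℕ∞) +
          kodairaDim B E ≤ kodairaDim k E)

/-- **Iitaka's inequality and `C⁺` for fibre spaces over a constant variety.** -/
theorem result : MovingIitaka.{u, v, w} ∧ IsotrivialIitaka.{u, v} := by
  constructor
  · intro k B E Y Z G L N J
    intros
    rename_i hcomp hdim halg hunr hunr' M D hram hpos
    obtain ⟨h1, h2⟩ := lower hcomp hdim halg hunr hunr' D hram hpos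
    refine ⟨⟨h1, h2⟩, fun hiso hout => ?_⟩
    have h3 := Twr.upper hcomp hdim halg hiso D hout
    refine ⟨h3, le_trans ?_ h1, fun hne => le_trans ?_ (h2 hne)⟩
    · rw [add_assoc]
      gcongr
    · rw [add_assoc]
      gcongr
  · intro k B E Y Z P G L N
    intros
    rename_i hcomp hdim hunr hP hN hG hG1 M hM hmv
    rcases hmv with hmv | ⟨hF, hk⟩
    · exact Br.main hcomp hunr hdim hP hN hG hG1 hM hmv
    · exact Br.main hcomp hunr hdim hP hN hG hG1 hM
        (branchMoves_main (E := E) (L := L) (G := G) (N := N) hcomp hdim hP hN hk hF)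

end Pool.Agent.Results.MP_f72953_ag.ConstantVariety
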