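import Mathlib
import Pool.Agent.Lib.Pf72953g.Fin

/-!
# Isotrivial fibres and Iitaka's conjecture

`k` is a field of characteristic zero, `B ⊆ E` are the function fields of the base and of the total space of a fibre space over `k`,
`N/E` is a finite Galois extension with group `H`, `G ⊇ k` and `P ⊇ B` are subfields of `N` which are stable under `H` and
algebraically independent over `k`; `H` acts faithfully on `G` and on `P`.  `fixedPart E P = P ∩ E` is the function field of
`P/H`, which lies between `B` and `E`; `kodairaDim B E` is the Kodaira dimension of the generic fibre of `E → B`.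

(1) If `N` is algebraic over `G P` (a finite cover of `G × P`) and `κ(P/H) ≥ 0`, `κ(G) ≥ 0`, then `κ(E) = κ(N)` for `E = N/H`; so
Iitaka's inequality for `N → B` implies the one for `E → B`.
From now on `k` is algebraically closed and `N = G P`: `E` is (birational to) `(G × P)/H`, an isotrivial fibre space over
`V = P/H` with fibre `G`.
(2) `κ(E) = κ(G) + κ(P)` if `κ(P/H) ≥ 0` or `κ(G/H) ≥ 0` or `h² = 1` for all `h ∈ H`.
(3) The same over `B`: `κ(E/B) = κ(G) + κ(P/B)` if `κ((P/H)/B) ≥ 0` or `κ(G/H) ≥ 0` or `h² = 1` for all `h ∈ H` (without the
condition `≤`).  Then Iitaka's inequality for `E → B` follows from the ones for `V → B` and its cover `P → B`.  If the condition of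
(2) holds too and `κ(G) ≥ 0` then `κ(E) - κ(E/B) = κ(P) - κ(P/B)`, and Iitaka's inequality for `E → B` is equivalent to the one for
`P → B`.
(4) Iitaka's inequality for all fibrations with base of dimension at most `b`, fibres of dimension at most `d` and total
space of dimension at most `n` is equivalent to Iitaka's inequality for all `E → B` as in (3), with `E` of any dimension, such that
`V → B` has base, fibres and total space of dimension at most `b`, `d`, `n`.
-/

set_option autoImplicit false
set_option linter.style.haveILetI false

open scoped WithZero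
open Pf72953 Pf72953.Red Pf72953.Diag

namespace Pool.Agent.Results.MP_f72953_ag.DiagonalQuotients

universe u

theorem result (k : Type u) [Field k] [CharZero k] :
    (∀ (B E N : Type u) [Field B] [Field E] [Field N] [Algebra k B] [Algebra k E] [Algebra k N]
      [Algebra B E] [Algebra B N] [Algebra E N] [IsScalarTower k B E] [IsScalarTower k B N]
      [IsScalarTower k E N] [IsScalarTower B E N] [Algebra.EssFiniteType k E]
      [FiniteDimensional E N] [IsGalois E N] (G : IntermediateField k N)
      (P : IntermediateField B N),
      -- (1)
      (DiagonalAction k E G P → kodairaDim k (fixedPart E P) ≠ ⊥ → kodairaDim k G ≠ ⊥ →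
        kodairaDim k E = kodairaDim k N ∧
        ∀ c, kodairaDim B N + c ≤ kodairaDim k N → kodairaDim B E + c ≤ kodairaDim k E) ∧
      (IsAlgClosed k → DiagonalQuotient k E G P →
        -- (2)
        (QuotientCond k k E G P → kodairaDim k E = kodairaDim k G + kodairaDim k P) ∧
        -- (3)
        kodairaDim B E ≤ kodairaDim k G + kodairaDim B P ∧
        (QuotientCond B k E G P → kodairaDim B E = kodairaDim k G + kodairaDim B P) ∧
        (QuotientCond B k E G P → IitakaIneq k B (fixedPart E P) → IitakaIneq k B P →
          IitakaIneq k B E) ∧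
        (QuotientCond k k E G P →
          ∀ c, kodairaDim B P + c ≤ kodairaDim k P → kodairaDim B E + c ≤ kodairaDim k E) ∧
        (QuotientCond B k E G P → kodairaDim k G ≠ ⊥ →
          ∀ c, kodairaDim B E + c ≤ kodairaDim k E → kodairaDim B P + c ≤ kodairaDim k P) ∧
        (QuotientCond k k E G P → QuotientCond B k E G P → kodairaDim k G ≠ ⊥ →
          (IitakaIneq k B E ↔ IitakaIneq k B P)))) ∧
    -- (4)
    (IsAlgClosed k → ∀ b d n, IitakaUpTo k b d n ↔ IitakaDiagonal k b d n) := by
  refine ⟨fun B E N _ _ _ _ _ _ _ _ _ _ _ _ _ _ _ _ G P =>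
    ⟨fun h hV hG => ⟨quotient_eq h hV hG, quotient_transfer h hV hG⟩, fun hk h => ?_⟩,
    fun hk b d n => iitaka_iff k b d n⟩
  refine ⟨dim_eq h, upper_dim h, dim_rel h, iitaka_of_two h, transfer h, transfer' h, fun h1 h2 h3 => ?_⟩
  unfold IitakaIneq
  rw [add_comm (kodairaDim k B) (kodairaDim B E), add_comm (kodairaDim k B) (kodairaDim B P)]
  exact ⟨transfer' h h2 h3 _, transfer h h1 _⟩

end Pool.Agent.Results.MP_f72953_ag.DiagonalQuotients
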