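import Mathlib
import Pool.Agent.Lib.Pf72953l.Sub

/-!
# The Kodaira dimension of Galois covers of products and Iitaka's conjecture

`k` is an algebraically closed field of characteristic zero, `Q` is a function field over `k`, `Y i`, `i ∈ ι` (`ι` finite), are
subfields of `Q`, algebraically independent over `k` (the dimensions add up), and `Q` is a finite Galois extension of the
compositum `total Y` of the `Y i`: the function field of a finite Galois cover of a product `∏ M i`, `M i` a variety with the
function field `Y i`; `κ(Y i) ≥ 0` for all `i`.  `others Y i` is the compositum of the `Y j`, `j ≠ i`, the function field of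
`∏_{j ≠ i} M j`; so `kodairaDim (others Y i) Q` is the Kodaira dimension of the generic fibre of `Q → ∏_{j ≠ i} M j`, a cover of `M i`.
`part Y s` is the function field of `∏_{i ∈ s} M i`.

The hypothesis `hM`: for all but one of the `i` there is a smooth complete variety `M` with the function field `Y i` such that

* `M` has factorial charts (`Factorial`; a smooth projective variety over `ℂ` has such an atlas if and only if `q(M) = 0`, which
  is not proved here), `k` of infinite transcendence degree over `ℚ`: then there is NO condition on the Galois cover; or
* `WMoves`: `M` is arbitrary, and every prime divisor of `M` over the function field `others Y i` over which `Q` is ramified is the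
  support of the divisor of a section `∑ a_l s_l`, `s_l` sections of a line bundle on `M`, `a_l ∈ others Y i`.

There is no condition on the remaining `Y i₀`, except `κ(Y i₀) ≥ 0`.

(1) `κ(Q) = ∑ κ(Q/others Y i)`: the Kodaira dimension of `Q` is the sum of the Kodaira dimensions of the generic fibres of the
projections to the products of all but one of the factors.  More generally, for every set `s` of factors, the generic fibre of
`Q → ∏_{i ∈ s} M i` has the Kodaira dimension `∑_{i ∉ s} κ(Q/others Y i)`.
Let now `T i ⊆ Y i` be subfields, the function fields of varieties `M' i` dominated by `M i`, so that `total T` is the function field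
of `∏ M' i`.  `adj (others Y i) (T i)` is the field generated over `others Y i` by `T i`, the function field of
`M' i × ∏_{j ≠ i} M j`.
(2) Iitaka's inequality holds for the fibre space `Q → ∏ M' i` if for every `i` the variety `M' i` is a point, or it has the
dimension of `M i`, or Iitaka's inequality holds for the fibre space `Q → M' i × ∏_{j ≠ i} M j` over `∏_{j ≠ i} M j` (its general
fibres are fibrations over `M' i` of covers of `M i`).  So Iitaka's inequality holds for the projections of `Q` to all partial
products, and for all `M' i` if the `M i` are curves.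
(3) If `κ(Q/M' i × ∏_{j ≠ i} M j) + c i ≤ κ(Q/∏_{j ≠ i} M j)` for all `i`, then `κ(Q/∏ M' i) + ∑ c i ≤ κ(Q)`.
-/

set_option autoImplicit false
set_option linter.style.haveILetI false

open scoped WithZero
open Pf72953 Pf72953.Mov Pf72953.PF Pf72953.Fac Pf72953.Osp

namespace Pool.Agent.Results.MP_f72953_ag.Products

universe u v

theorem result (k : Type v) (Q : Type u) [Field k] [CharZero k] [IsAlgClosed k] [Field Q] [Algebra k Q]
    [Algebra.EssFiniteType k Q] (ι : Type) [Fintype ι] [DecidableEq ι] [Nonempty ι]
    (Y : ι → IntermediateField k Q) [FiniteDimensional (total Y) Q] [IsGalois (total Y) Q]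
    (hdim : ∑ i, dimension k (Y i) = dimension k (total Y))
    (hY : ∀ i, kodairaDim k (Y i) ≠ ⊥) (i₀ : ι)
    (hM : ∀ i, i ≠ i₀ → ∃ M : SmoothModel k (Y i),
      (Cardinal.aleph0 ≤ Algebra.trdeg ℚ k ∧ Factorial M) ∨
        WMoves k M (others Y i) (total Y) Q) :
    -- (1)
    (kodairaDim k Q = ∑ i, kodairaDim (others Y i) Q ∧
      ∀ s : Finset ι, kodairaDim (part Y s) Q = ∑ i ∈ sᶜ, kodairaDim (others Y i) Q) ∧
    ∀ T : ι → IntermediateField k Q, (∀ i, T i ≤ Y i) →
      -- (2)
      ((∀ i, dimension k (T i) = 0 ∨ dimension k (T i) = dimension k (Y i) ∨
          kodairaDim (others Y i) (adj (others Y i) (T i)) +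
            kodairaDim (adj (others Y i) (T i)) Q ≤ kodairaDim (others Y i) Q) →
        kodairaDim k (total T) + kodairaDim (total T) Q ≤ kodairaDim k Q) ∧
      -- (3)
      (∀ c : ι → WithBot ℕ∞,
        (∀ i, kodairaDim (adj (others Y i) (T i)) Q + c i ≤ kodairaDim (others Y i) Q) →
        kodairaDim (total T) Q + ∑ i, c i ≤ kodairaDim k Q) := by
  obtain ⟨h, h0⟩ := Rsp.lower_fam hdim hY i₀ hM
  exact ⟨⟨formula_of hdim h, partial_of hdim h h0⟩, fun T hT => ⟨Rsp.iitaka_fam hdim h hT,
    reduction_of hdim h hT⟩⟩

end Pool.Agent.Results.MP_f72953_ag.Products
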