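import Mathlib
import Pool.Agent.Lib.Pf72953n.FibU

/-!
# Iitaka's inequality for towers of families of curves with uniform ramification and of isotrivial fibre spaces

All fields are finitely generated subfields of an algebraically closed field `Ω ⊇ k`, `k` algebraically closed of characteristic
zero, `Ω` of infinite transcendence degree over `k`; they are the function fields of varieties over `k`, and `A ⊆ Q` stands for
a dominant rational map `Q ⇢ A`.  `kodairaDim k A` is the Kodaira dimension of `A` (`⊥` is `-∞`), `relKod A Q` is the Kodaira
dimension of the generic fibre of `Q ⇢ A`, `dimension k A` the dimension of `A`, and `Iitaka B Q` is Iitaka's inequality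
`κ(B) + κ(Q/B) ≤ κ(Q)`.

`StableFib B V`: Iitaka's inequality holds for `Q → B × C^m`, `C` the curve `y² = x⁵ - 1`, for every `m` and every finite Galois
cover `Q` of `V × C^m`.

`Ruled V T`: `T → V` is a family of curves of genus `0` (a conic bundle, without a section in general): `V` is algebraically
closed in `T` and `T·P = P(x)` for a finite Galois extension `P` of `V`.  For example `V(x)`, or the conic `a u² + b v² = 1` over
`V`.

`Step V E M P`: `E = (M × P)/H` is an isotrivial fibre space over `V = P/H` with the fibre `M`, `H` a finite group which acts
faithfully on `M` and on `P`.  `IsFactorial M`: `M` is the function field of a smooth complete variety with an atlas of charts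
whose coordinate rings are factorial, and `k` has infinite transcendence degree over `ℚ`, for example `k = ℂ`.  (A smooth
projective variety has such an atlas if and only if `q(M) = 0`; this is not proved here.)  `FactorialStep V E M P`:
`Step V E M P`, `κ(M) ≥ 0`, `IsFactorial M`.

`GalTower B V E`: `V = U₀ ⊆ U₁ ⊆ … ⊆ U_n`, every `U_{i+1} → U_i` is `Ruled` or a `FactorialStep`, and `E` is ANY finite Galois
extension of `U_n`.  So `E = E_n → E_{n-1} → … → E₀ → V`, `E_i` the algebraic closure of `U_i` in `E`, is a tower of families of
curves of variable moduli and of isotrivial fibre spaces; `κ(E₀/B) ≥ 0`, and the curves `E_{i+1}/E_i` have genus `≥ 1` for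
`i + 1 < n` (the last family has any genus).  For example, `E` is a finite Galois extension of `V(x₁, …, x_n)`.  For `n = 1`:
all families of curves `E → V` with a finite group `G` of automorphisms over `V` such that `E/G → V` has genus `0`, for example
all families of hyperelliptic curves and all families of curves of genus `2`.

`Uni W T E`: `W` is algebraically closed in `E ⊇ T`, and there is a finite Galois extension `N ⊇ E` of `T` which is unramified
over `E` at all valuations which are trivial on `W`: `E → W` is a family of curves which covers the family `T → W` with uniform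
ramification (on the generic fibres the ramification index of `E/T` is the same at all points over the same branch point), but
`E` is not a Galois extension of `T` in general.  For example `E = T`; or `E·P` is a Galois extension of `T` for a finite Galois
extension `P` of `W` (`GeoGal.uni` in the library); so (not proved here) all families of curves of genus `1`, without a section,
for a suitable `T = W(x)`, all families whose geometric generic fibre `F` is of genus `≥ 2` with `F/Aut(F)` of genus `0`, and all
families of unramified covers of the curves of these families.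

`FibreTower B V W X`: `X → V` is a tower of fibre spaces with fibres of Kodaira dimension `≥ 0`, which starts with a finite
Galois cover `X` of `W = V`, `κ(X/B) ≥ 0`; in every further step `X` is replaced by the pull-back `X ×_W (E ×_T Q)`, of genus
`≥ 1` over `X`, of a family of curves: `Ruled W T`, `Uni W T E` (for example `E = T`), `Q` ANY finite Galois extension of `T`
(then `W` is replaced by `T`); or by the pull-back `X ×_W E` of an isotrivial fibre space `E = (M × P)/H → W`,
`FactorialStep W E M P` (then `W` is replaced by `E`), or by `(G × (X ×_W P))/H`, `G` ANY variety, `κ(G) ≥ 0`, `P` a finite Galois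
cover of `W`, `H` a finite group which acts faithfully on `G` and on `X ×_W P`, trivially on `X`, or by `X ×_W P`, or by any
`X₁ → W` such that `X` and `X₁` have a common finite étale Galois cover (unramified at all divisorial valuations).

(1) Iitaka's inequality holds for `E → B` for all `GalTower`s and all `FibreTower`s over `V`, if `V = B` or `V → B` is stable.
(2) For every `d`, Iitaka's inequality for all fibre spaces of relative dimension at most `d` is equivalent to Iitaka's
inequality for all `GalTower`s (of any height and dimension), and for all `FibreTower`s, over the `V → B` of relative dimension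
at most `d`.  The same for the fibre spaces with generic fibre `F`, `κ(F) ≥ dim F - d`.
(3) Stable fibre spaces: `B → B`; if `V → B` is stable and `κ(V) ≥ 0`: `T → B`, if `Ruled V T`; `E → B`, if
`FactorialStep V E M P` (then also `κ(E) ≥ 0`), for example `E = V × M`; and `E → B·M₀`, if `M → M₀` is stable, `M₀ ⊆ E`, for
example the product of two stable fibre spaces `V → B`, `M → M₀`.  All the `V → B` of (2) are stable if Iitaka's inequality holds
for all of them.
-/

set_option autoImplicit false
set_option linter.style.haveILetI false

open scoped WithZero
open Pf72953 Pf72953.Mov Pf72953.Tow Pf72953.Pl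
open Pf72953.Fb (GalTower fibreDim_galTower fibreKod_galTower stableFib_ruled)
open Pf72953.Un (FibreTower fibreDim_fibreTower fibreKod_fibreTower)

namespace Pool.Agent.Results.MP_f72953_ag.Towers

theorem result (k Ω : Type*) [Field k] [CharZero k] [IsAlgClosed k] [Field Ω] [IsAlgClosed Ω]
    [Algebra k Ω]
    (hΩ : ∀ A : IntermediateField k Ω, Algebra.EssFiniteType k A → ∃ t : Ω, Transcendental A t) :
    -- (1)
    (∀ B E : IntermediateField k Ω, GalTower B B E → Iitaka B E) ∧
    (∀ B W E : IntermediateField k Ω, FibreTower B B W E → Iitaka B E) ∧
    (∀ B V E : IntermediateField k Ω, StableFib B V → GalTower B V E → Iitaka B E) ∧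
    (∀ B V W E : IntermediateField k Ω, StableFib B V → FibreTower B V W E → Iitaka B E) ∧
    (∀ (V : IntermediateField k Ω) (x : Ω), Algebra.EssFiniteType k V → Transcendental V x →
      Ruled V (V ⊔ IntermediateField.adjoin k {x})) ∧
    (∀ (V : IntermediateField k Ω) (a b u v : Ω), Algebra.EssFiniteType k V → a ∈ V → b ∈ V →
      a ≠ 0 → b ≠ 0 → Transcendental V u → a * u ^ 2 + b * v ^ 2 = 1 →
      Ruled V (V ⊔ IntermediateField.adjoin k {u, v})) ∧
    -- (2)
    (∀ d : ℕ,
      (IitakaFibreDim k Ω d ↔ ∀ B V E : IntermediateField k Ω, B ≤ V →
        dimension k V ≤ dimension k B + d → GalTower B V E → Iitaka B E) ∧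
      (IitakaFibreDim k Ω d ↔ ∀ B V W E : IntermediateField k Ω, B ≤ V →
        dimension k V ≤ dimension k B + d → FibreTower B V W E → Iitaka B E) ∧
      (IitakaFibreKod k Ω d ↔ ∀ B V E : IntermediateField k Ω, B ≤ V →
        (dimension k V : WithBot ℕ∞) ≤ dimension k B + d + relKod B V →
        GalTower B V E → Iitaka B E) ∧
      (IitakaFibreKod k Ω d ↔ ∀ B V W E : IntermediateField k Ω, B ≤ V →
        (dimension k V : WithBot ℕ∞) ≤ dimension k B + d + relKod B V →
        FibreTower B V W E → Iitaka B E)) ∧
    -- (3)
    (∀ B : IntermediateField k Ω, Algebra.EssFiniteType k B → StableFib B B) ∧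
    (∀ B V T : IntermediateField k Ω, Algebra.EssFiniteType k V → StableFib B V →
      kodairaDim k V ≠ ⊥ → Ruled V T → StableFib B T) ∧
    (∀ B V E M P : IntermediateField k Ω, StableFib B V → kodairaDim k V ≠ ⊥ →
      FactorialStep V E M P → (StableFib B E ∧ kodairaDim k E ≠ ⊥) ∧
      ∀ M₀ : IntermediateField k Ω, StableFib M₀ M → M₀ ≤ E → StableFib (B ⊔ M₀) E) ∧
    (∀ (d : ℕ) (B V : IntermediateField k Ω), Algebra.EssFiniteType k V → B ≤ V →
      (IitakaFibreDim k Ω d → dimension k V ≤ dimension k B + d → StableFib B V) ∧
      (IitakaFibreKod k Ω d → (dimension k V : WithBot ℕ∞) ≤ dimension k B + d + relKod B V →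
        StableFib B V)) :=
  ⟨fun _ _ h => h.iitaka hΩ (StableFib.refl h.fin),
    fun _ _ _ h => h.iitaka hΩ (StableFib.refl h.fin.1),
    fun _ _ _ hS h => h.iitaka hΩ hS,
    fun _ _ _ _ hS h => h.iitaka hΩ hS,
    fun _ _ hV hx => ruled_line hV hx,
    fun _ _ _ _ _ hV ha hb ha0 hb0 hu h => ruled_conic hV ha hb ha0 hb0 hu h,
    fun d => ⟨fibreDim_galTower hΩ d, fibreDim_fibreTower hΩ d, fibreKod_galTower hΩ d,
      fibreKod_fibreTower hΩ d⟩,
    fun _ hB => StableFib.refl hB,
    fun _ _ _ hV hS h0 hT => stableFib_ruled hS hV h0 hΩ hT,
    fun _ _ _ _ _ hS hV h => ⟨h.stableFib hS hV, fun _ hM₀ hM₀E =>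
      (h.grow hS hV (Or.inr hM₀) hM₀E).1⟩,
    fun _ _ _ hV hBV => ⟨fun hI hd => stableFib_of_dim hI hV hBV hd,
      fun hI hd => stableFib_of_kod hI hV hBV hd⟩⟩

end Pool.Agent.Results.MP_f72953_ag.Towers
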